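import Pool.Agent.ZES.StmtsL

/-!
ZES squad, row RNK (ranks of discrete groups)
-/

set_option autoImplicit false

namespace Pool.Agent.ZES.H53

open Pool.Agent.ZES Module

theorem rnk : RnkStmt := by
  intro E _ _ _ L π hd hsp hd'
  have hMd : DiscreteTopology (AddSubgroup.toIntSubmodule L) := hd
  have e1 : finrank ℤ (AddSubgroup.toIntSubmodule L) = finrank ℝ E := by
    have : IsZLattice ℝ (AddSubgroup.toIntSubmodule L) := ⟨hsp⟩
    exact ZLattice.rank ℝ (AddSubgroup.toIntSubmodule L)
  let p : (AddSubgroup.toIntSubmodule L) →ₗ[ℤ] E :=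
    (π.toAddMonoidHom.toIntLinearMap).comp (AddSubgroup.toIntSubmodule L).subtype
  have hp : ∀ x, p x = π x.1 := fun x => rfl
  have e2 : finrank ℤ ((AddSubgroup.toIntSubmodule L) ⧸ LinearMap.ker p)
      + finrank ℤ (LinearMap.ker p) = finrank ℤ (AddSubgroup.toIntSubmodule L) :=
    Submodule.finrank_quotient_add_finrank _
  have e3 : finrank ℤ ((AddSubgroup.toIntSubmodule L) ⧸ LinearMap.ker p)
      = finrank ℤ (LinearMap.range p) := (p.quotKerEquivRange).finrank_eq
  -- the image
  have r1 : Submodule.span ℤ (π '' (L : Set E)) = LinearMap.range p := by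
    apply le_antisymm
    · rw [Submodule.span_le]
      rintro y ⟨x, hx, rfl⟩
      exact ⟨⟨x, hx⟩, rfl⟩
    · rintro y ⟨x, rfl⟩
      exact Submodule.subset_span ⟨x.1, x.2, rfl⟩
  have r2 : Submodule.span ℤ (π '' (L : Set E))
      = AddSubgroup.toIntSubmodule (L.map π.toAddMonoidHom) := by
    apply le_antisymm
    · rw [Submodule.span_le]
      rintro y ⟨x, hx, rfl⟩
      exact ⟨x, hx, rfl⟩
    · rintro y ⟨x, hx, rfl⟩
      exact Submodule.subset_span ⟨x, hx, rfl⟩
  have r3 : DiscreteTopology (Submodule.span ℤ (π '' (L : Set E))) := by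
    rw [r2]
    exact hd'
  have e4 : Set.finrank ℝ (π '' (L : Set E)) = Set.finrank ℤ (π '' (L : Set E)) :=
    Real.finrank_eq_int_finrank_of_discrete r3
  have e5 : finrank ℝ (Submodule.span ℝ (π '' (L : Set E))) = finrank ℤ (LinearMap.range p) := by
    rw [← r1]
    exact e4
  have e6 : finrank ℝ (Submodule.span ℝ (π '' (L : Set E))) ≤ finrank ℝ (LinearMap.range π) := by
    apply Submodule.finrank_mono
    rw [Submodule.span_le]
    rintro y ⟨x, -, rfl⟩
    exact ⟨x, rfl⟩
  -- the kernel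
  have k1 : Submodule.span ℤ {x : E | x ∈ L ∧ π x = 0}
      = (LinearMap.ker p).map (AddSubgroup.toIntSubmodule L).subtype := by
    apply le_antisymm
    · rw [Submodule.span_le]
      rintro y ⟨hy, hy0⟩
      exact ⟨⟨y, hy⟩, hy0, rfl⟩
    · rintro y ⟨x, hx, rfl⟩
      exact Submodule.subset_span ⟨x.2, hx⟩
  have k2 : Submodule.span ℤ {x : E | x ∈ L ∧ π x = 0} ≤ AddSubgroup.toIntSubmodule L := by
    rw [Submodule.span_le]
    rintro y ⟨hy, -⟩
    exact hy
  have k3 : DiscreteTopology (Submodule.span ℤ {x : E | x ∈ L ∧ π x = 0}) :=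
    DiscreteTopology.of_subset hMd k2
  have k4 : Set.finrank ℝ {x : E | x ∈ L ∧ π x = 0} = Set.finrank ℤ {x : E | x ∈ L ∧ π x = 0} :=
    Real.finrank_eq_int_finrank_of_discrete k3
  have k5 : finrank ℤ (Submodule.span ℤ {x : E | x ∈ L ∧ π x = 0})
      = finrank ℤ (LinearMap.ker p) := by
    rw [k1]
    exact (Submodule.equivMapOfInjective (AddSubgroup.toIntSubmodule L).subtype
      (Submodule.injective_subtype _) (LinearMap.ker p)).finrank_eq.symm
  have k6 : finrank ℝ (Submodule.span ℝ {x : E | x ∈ L ∧ π x = 0})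
      = finrank ℤ (LinearMap.ker p) := by
    rw [← k5]
    exact k4
  have e7 : finrank ℝ (LinearMap.range π) + finrank ℝ (LinearMap.ker π) = finrank ℝ E :=
    LinearMap.finrank_range_add_finrank_ker π
  apply Submodule.eq_of_le_of_finrank_le
  · rw [Submodule.span_le]
    rintro y ⟨-, hy⟩
    exact hy
  · rw [k6]
    omega

end Pool.Agent.ZES.H53
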